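import Pool.Agent.TH78.TIG.Conj
import Pool.Agent.Helper472.Lat_PW

set_option autoImplicit false

/-! Topological invariable generation of compact groups. -/

namespace Pool.Agent.TH78.TIG

open Filter Topology
open Pool.LatH472

/-- Jordan: a subgroup of a finite group meeting every conjugacy class is the whole group. -/
theorem jordan {Q : Type} [Group Q] [Finite Q] (H : Subgroup Q)
    (h : ∀ q : Q, ∃ g : Q, g * q * g⁻¹ ∈ H) : H = ⊤ := by
  classical
  have := Fintype.ofFinite Q
  have hf : ∀ q : Q, Fintype (MulAction.fixedBy (Q ⧸ H) q) := fun q => Fintype.ofFinite _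
  have ho : Fintype (MulAction.orbitRel.Quotient Q (Q ⧸ H)) := Fintype.ofFinite _
  have h1 := MulAction.sum_card_fixedBy_eq_card_orbits_mul_card_group Q (Q ⧸ H)
  have h2 : Fintype.card (MulAction.orbitRel.Quotient Q (Q ⧸ H)) = 1 := by
    rw [Fintype.card_eq_one_iff]
    refine ⟨Quotient.mk'' ((1 : Q) : Q ⧸ H), fun y => ?_⟩
    induction y using Quotient.inductionOn' with
    | h x =>
    apply Quotient.sound'
    rw [MulAction.orbitRel_apply]
    exact MulAction.exists_smul_eq Q _ _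
  rw [h2, one_mul] at h1
  have h3 : ∀ q : Q, 1 ≤ Fintype.card (MulAction.fixedBy (Q ⧸ H) q) := by
    intro q
    obtain ⟨g, hg⟩ := h q
    rw [Nat.succ_le_iff, Fintype.card_pos_iff]
    refine ⟨⟨((g⁻¹ : Q) : Q ⧸ H), ?_⟩⟩
    rw [MulAction.mem_fixedBy]
    change ((q * g⁻¹ : Q) : Q ⧸ H) = ((g⁻¹ : Q) : Q ⧸ H)
    rw [eq_comm, QuotientGroup.eq]
    simpa [mul_assoc] using hg
  have h4 : ∀ q : Q, Fintype.card (MulAction.fixedBy (Q ⧸ H) q) = 1 := by
    by_contra hcon
    push Not at hcon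
    obtain ⟨q, hq⟩ := hcon
    have h5 : ∑ _q : Q, 1 < ∑ q : Q, Fintype.card (MulAction.fixedBy (Q ⧸ H) q) := by
      apply Finset.sum_lt_sum (fun q _ => h3 q)
      exact ⟨q, Finset.mem_univ q, lt_of_le_of_ne (h3 q) (Ne.symm hq)⟩
    rw [h1, Finset.sum_const, Finset.card_univ, smul_eq_mul, mul_one] at h5
    exact lt_irrefl _ h5
  have h6 := h4 1
  rw [Fintype.card_eq_one_iff] at h6
  obtain ⟨y, hy⟩ := h6
  rw [eq_top_iff]
  intro g _
  have e1 := hy ⟨((1 : Q) : Q ⧸ H), by rw [MulAction.mem_fixedBy, one_smul]⟩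
  have e2 := hy ⟨((g : Q) : Q ⧸ H), by rw [MulAction.mem_fixedBy, one_smul]⟩
  have e3 : ((1 : Q) : Q ⧸ H) = ((g : Q) : Q ⧸ H) := congrArg Subtype.val (e1.trans e2.symm)
  rw [QuotientGroup.eq] at e3
  simpa using e3

/-- a closed subgroup of a profinite group meeting every conjugacy class is everything -/
theorem prof {Q : Type} [Group Q] [TopologicalSpace Q] [IsTopologicalGroup Q] [CompactSpace Q]
    [T2Space Q] [TotallyDisconnectedSpace Q] (H : Subgroup Q) (hH : IsClosed (H : Set Q))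
    (h : ∀ q : Q, ∃ g : Q, g * q * g⁻¹ ∈ H) : H = ⊤ := by
  rw [eq_top_iff]
  intro q _
  by_contra hq
  have hO : IsOpen {x : Q | q * x ∉ H} := by
    have : Continuous fun x : Q => q * x := by fun_prop
    exact hH.isOpen_compl.preimage this
  obtain ⟨U, hU⟩ := ProfiniteGrp.exist_openNormalSubgroup_sub_open_nhds_of_one hO
    (by change q * 1 ∉ H; rwa [mul_one])
  have hfin : Finite (Q ⧸ U.toSubgroup) := U.toOpenSubgroup.finiteIndex_of_finite_quotient |> fun _ =>
    Subgroup.quotient_finite_of_isOpen _ U.isOpen'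
  have hmap : H.map (QuotientGroup.mk' U.toSubgroup) = ⊤ := by
    apply jordan
    intro y
    obtain ⟨x, rfl⟩ := QuotientGroup.mk_surjective y
    obtain ⟨g, hg⟩ := h x
    exact ⟨(g : Q ⧸ U.toSubgroup), ⟨_, hg, rfl⟩⟩
  have hq2 : (q : Q ⧸ U.toSubgroup) ∈ H.map (QuotientGroup.mk' U.toSubgroup) := by
    rw [hmap]; trivial
  obtain ⟨k, hk, hkq⟩ := hq2
  have h1 : (q : Q ⧸ U.toSubgroup) = (k : Q ⧸ U.toSubgroup) := hkq.symm
  rw [QuotientGroup.eq] at h1
  have h2 := hU h1
  apply h2
  rwa [mul_inv_cancel_left]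

theorem td_quot (G : Type) [Group G] [TopologicalSpace G] [IsTopologicalGroup G] :
    TotallyDisconnectedSpace (G ⧸ Subgroup.connectedComponentOfOne G) ∧
      (Subgroup.connectedComponentOfOne G).Normal := by
  set G0 : Subgroup G := Subgroup.connectedComponentOfOne G with hG0
  have hnorm : G0.Normal := by
    refine ⟨fun n hn g => ?_⟩
    have hc : Continuous fun x : G => g * x * g⁻¹ := by fun_prop
    have h1 := hc.image_connectedComponent_subset 1 ⟨n, hn, rfl⟩
    show g * n * g⁻¹ ∈ connectedComponent (1 : G)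
    simpa using h1
  refine ⟨?_, hnorm⟩
  have hco : Topology.IsCoinducing (QuotientGroup.mk : G → G ⧸ G0) :=
    (QuotientGroup.isQuotientMap_mk (N := G0)).isCoinducing
  have hfib : ∀ y : G ⧸ G0, IsConnected ((QuotientGroup.mk : G → G ⧸ G0) ⁻¹' {y}) := by
    intro y
    obtain ⟨a, rfl⟩ := QuotientGroup.mk_surjective y
    have h1 : (QuotientGroup.mk : G → G ⧸ G0) ⁻¹' {(a : G ⧸ G0)} =
        (fun x => a * x) '' connectedComponent (1 : G) := by
      ext x
      simp only [Set.mem_preimage, Set.mem_singleton_iff, Set.mem_image]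
      constructor
      · intro hx
        refine ⟨a⁻¹ * x, ?_, by group⟩
        exact QuotientGroup.eq.1 hx.symm
      · rintro ⟨z, hz, rfl⟩
        refine (QuotientGroup.eq.2 ?_).symm
        have : a⁻¹ * (a * z) = z := by group
        rw [this]; exact hz
    rw [h1]
    exact isConnected_connectedComponent.image _ (by fun_prop)
  rw [totallyDisconnectedSpace_iff_connectedComponent_one]
  have h1 := hco.image_connectedComponent hfib 1
  have h2 : ((1 : G) : G ⧸ G0) = 1 := rfl
  rw [h2] at h1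
  rw [← h1]
  ext y
  simp only [Set.mem_image, Set.mem_singleton_iff]
  constructor
  · rintro ⟨x, hx, rfl⟩
    exact (QuotientGroup.eq_one_iff x).2 hx
  · rintro rfl
    exact ⟨1, mem_connectedComponent, rfl⟩

/-- the set of exponentials of a commutative Lie algebra -/
def expS {ι : Type} [Fintype ι] [DecidableEq ι] (L : Subgroup (UU ι))
    (hL : IsClosed (L : Set (UU ι))) (hc : ∀ X ∈ LieAlg L, ∀ Y ∈ LieAlg L, X * Y = Y * X) :
    Subgroup (UU ι) where
  carrier := {u | ∃ X ∈ LieAlg L, NormedSpace.exp X = (u : Matrix ι ι ℂ)}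
  one_mem' := ⟨0, lie_zero, by rw [NormedSpace.exp_zero]; rfl⟩
  mul_mem' := by
    rintro u v ⟨X, hX, hu⟩ ⟨Y, hY, hv⟩
    refine ⟨X + Y, (lieS L hL).add_mem hX hY, ?_⟩
    rw [Matrix.exp_add_of_commute _ _ (hc X hX Y hY), hu, hv]
    rfl
  inv_mem' := by
    rintro u ⟨X, hX, hu⟩
    refine ⟨-X, (lieS L hL).neg_mem hX, ?_⟩
    exact (TTL_inv_val X hX.1 u hu.symm).symm

/-- if the identity component is not commutative then some proper closed subgroup meets every
conjugacy class -/
theorem exists_proper {G : Type} [Group G] [TopologicalSpace G] [IsTopologicalGroup G]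
    [CompactSpace G] [T2Space G] {a b : G} (ha : a ∈ connectedComponent (1 : G))
    (hb : b ∈ connectedComponent (1 : G)) (hab : a * b ≠ b * a) :
    ∃ H : Subgroup G, IsClosed (H : Set G) ∧ H ≠ ⊤ ∧ ∀ g : G, ∃ s : G, s * g * s⁻¹ ∈ H := by
  have hc : a * b * a⁻¹ * b⁻¹ ≠ 1 := by
    intro h
    apply hab
    have h1 : a * b * a⁻¹ * b⁻¹ * (b * a) = a * b := by group
    rw [h, one_mul] at h1
    exact h1.symm
  obtain ⟨ι, _, _, ρ, hρ, hρc⟩ := PW G _ hc
  let L : Subgroup (UU ι) := ρ.range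
  have hL : IsClosed (L : Set (UU ι)) := by
    have h1 : (L : Set (UU ι)) = Set.range ρ := rfl
    rw [h1]
    exact (isCompact_range hρ).isClosed
  have hne : ∃ X ∈ LieAlg L, ∃ Y ∈ LieAlg L, X * Y ≠ Y * X := by
    by_contra hcon
    push Not at hcon
    let E := (expS L hL hcon).comap ρ
    have hEo : IsOpen (E : Set G) := by
      apply Subgroup.isOpen_of_mem_nhds (g := 1)
      obtain ⟨O, hO, hO2⟩ := CST2 CST1 ι L hL Set.univ univ_mem
      have h1 : ρ ⁻¹' O ∈ 𝓝 (1 : G) := by
        apply hρ.continuousAt.preimage_mem_nhds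
        rw [map_one]
        exact hO
      refine Filter.mem_of_superset h1 fun g hg => ?_
      obtain ⟨X, hX, -, hX2⟩ := hO2 (ρ g) ⟨g, rfl⟩ hg
      exact ⟨X, hX, hX2⟩
    have hEc : IsClopen (E : Set G) := ⟨Subgroup.isClosed_of_isOpen _ hEo, hEo⟩
    have hsub := hEc.connectedComponent_subset E.one_mem
    obtain ⟨X, hX, hXa⟩ := hsub ha
    obtain ⟨Y, hY, hYb⟩ := hsub hb
    apply hρc
    have h1 : ρ a * ρ b = ρ b * ρ a := by
      apply Subtype.ext
      change ((ρ a : UU ι) : Matrix ι ι ℂ) * ((ρ b : UU ι) : Matrix ι ι ℂ) =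
        ((ρ b : UU ι) : Matrix ι ι ℂ) * ((ρ a : UU ι) : Matrix ι ι ℂ)
      rw [← hXa, ← hYb, ← Matrix.exp_add_of_commute _ _ (hcon X hX Y hY),
        ← Matrix.exp_add_of_commute _ _ (hcon Y hY X hX), add_comm]
    rw [map_mul, map_mul, map_mul, map_inv, map_inv, h1]
    group
  obtain ⟨H, hHc, hHL, hHne, hHconj⟩ := lie_case hL hne
  refine ⟨H.comap ρ, hHc.preimage hρ, ?_, ?_⟩
  · intro htop
    apply hHne
    apply le_antisymm hHL
    rintro _ ⟨g, rfl⟩
    have : g ∈ H.comap ρ := by rw [htop]; trivial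
    exact this
  · intro g
    obtain ⟨k, ⟨s, rfl⟩, hk⟩ := hHconj (ρ g) ⟨g, rfl⟩
    refine ⟨s, ?_⟩
    rw [Subgroup.mem_comap, map_mul, map_mul, map_inv]
    exact hk

theorem main :
    ∀ (G : Type) [Group G] [TopologicalSpace G] [IsTopologicalGroup G] [CompactSpace G]
      [T2Space G] [Infinite G],
      (∀ f : G → G,
          (Subgroup.closure (Set.range (fun x : G => f x * x * (f x)⁻¹))).topologicalClosure = ⊤) ↔
        ∃ N : Subgroup G, N.Normal ∧ IsClosed (N : Set G) ∧ IsConnected (N : Set G) ∧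
          (∀ a ∈ N, ∀ b ∈ N, a * b = b * a) ∧ TotallyDisconnectedSpace (G ⧸ N) := by
  intro G _ _ _ _ _ _
  constructor
  · intro htig
    obtain ⟨h1, h2⟩ := td_quot G
    refine ⟨Subgroup.connectedComponentOfOne G, h2, isClosed_connectedComponent,
      isConnected_connectedComponent, ?_, h1⟩
    intro a ha b hb
    by_contra hab
    obtain ⟨H, hHc, hHne, hH⟩ := exists_proper ha hb hab
    choose f hf using hH
    apply hHne
    rw [eq_top_iff, ← htig f]
    apply Subgroup.topologicalClosure_minimal _ _ hHc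
    rw [Subgroup.closure_le]
    rintro _ ⟨x, rfl⟩
    exact hf x
  · rintro ⟨N, hN, hNc, -, hNa, hNt⟩ f
    set H := (Subgroup.closure (Set.range (fun x : G => f x * x * (f x)⁻¹))).topologicalClosure
      with hH
    have hHc : IsClosed (H : Set G) := Subgroup.isClosed_topologicalClosure _
    have hHm : ∀ g : G, ∃ s : G, s * g * s⁻¹ ∈ H := by
      intro g
      refine ⟨f g, ?_⟩
      apply Subgroup.le_topologicalClosure
      exact Subgroup.subset_closure ⟨g, rfl⟩
    have hclf : Fact (IsClosed (N : Set G)) := ⟨hNc⟩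
    have hT2 : T2Space (G ⧸ N) := by
      have : T1Space (G ⧸ N) := inferInstance
      infer_instance
    have hmap : H.map (QuotientGroup.mk' N) = ⊤ := by
      apply prof
      · have h1 : ((H.map (QuotientGroup.mk' N) : Subgroup (G ⧸ N)) : Set (G ⧸ N)) =
            (QuotientGroup.mk' N) '' (H : Set G) := rfl
        rw [h1]
        exact (hHc.isCompact.image QuotientGroup.continuous_mk).isClosed
      · intro y
        obtain ⟨x, rfl⟩ := QuotientGroup.mk_surjective y
        obtain ⟨g, hg⟩ := hHm x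
        exact ⟨(g : G ⧸ N), ⟨_, hg, rfl⟩⟩
    have hHN : ∀ g : G, ∃ h ∈ H, ∃ n ∈ N, g = h * n := by
      intro g
      have h1 : (g : G ⧸ N) ∈ H.map (QuotientGroup.mk' N) := by rw [hmap]; trivial
      obtain ⟨h, hh, h2⟩ := h1
      have h3 : (h : G ⧸ N) = (g : G ⧸ N) := h2
      rw [QuotientGroup.eq] at h3
      exact ⟨h, hh, h⁻¹ * g, h3, by group⟩
    have hNH : N ≤ H := by
      intro t ht
      obtain ⟨g, hg⟩ := hHm t
      have ha : g * t * g⁻¹ ∈ N := hN.conj_mem t ht g
      obtain ⟨h, hh, n, hn, hgn⟩ := hHN g⁻¹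
      have h1 : t = g⁻¹ * (g * t * g⁻¹) * g := by group
      have h3 : t = h * (g * t * g⁻¹) * h⁻¹ := by
        have h4 : ∀ A : G, g⁻¹ * A * g = (h * n) * A * (h * n)⁻¹ := by
          intro A
          rw [← hgn, inv_inv]
        have h5 : ∀ A : G, (h * n) * A * (h * n)⁻¹ = h * (n * A * n⁻¹) * h⁻¹ := by
          intro A; group
        have h6 : n * (g * t * g⁻¹) * n⁻¹ = g * t * g⁻¹ := by
          rw [hNa n hn _ ha, mul_inv_cancel_right]
        rw [h4, h5, h6] at h1
        exact h1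
      rw [h3]
      exact H.mul_mem (H.mul_mem hh hg) (H.inv_mem hh)
    rw [eq_top_iff]
    intro g _
    obtain ⟨h, hh, n, hn, rfl⟩ := hHN g
    exact H.mul_mem hh (hNH hn)

end Pool.Agent.TH78.TIG
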