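import Mathlib

set_option autoImplicit false

namespace Pool.Agent.TH78.TIG

open Filter Topology

/-- A perturbation lemma for commuting operators. -/
theorem ker_le_of_rank {M : Type} [NormedAddCommGroup M] [NormedSpace ℝ M] [FiniteDimensional ℝ M]
    (A B : M →ₗ[ℝ] M) (hAB : ∀ x, A (B x) = B (A x)) (hA : ∀ x, A (A x) = 0 → A x = 0)
    (hr : ∀ e : ℝ, Module.finrank ℝ (LinearMap.range (A + e • B)) ≤
      Module.finrank ℝ (LinearMap.range A)) {z : M} (hz : A z = 0) : B z = 0 := by
  by_contra hne
  set r := Module.finrank ℝ (LinearMap.range A) with hrdef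
  let b := Module.finBasis ℝ (LinearMap.range A)
  have hw : ∀ i, ∃ w, A w = (b i : M) := fun i => (b i).2
  choose w hw using hw
  let v : ℝ → (Fin r ⊕ Unit) → M := fun e => Sum.elim (fun i => A (w i) + e • B (w i)) (fun _ => B z)
  have hv0 : LinearIndependent ℝ (v 0) := by
    have : v 0 = Sum.elim (fun i => ((b i : LinearMap.range A) : M)) (fun _ : Unit => B z) := by
      funext j
      rcases j with i | _
      · simp [v, hw]
      · rfl
    rw [this]
    apply LinearIndependent.sum_type
    · exact b.linearIndependent.map' (LinearMap.range A).subtype (Submodule.ker_subtype _)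
    · exact LinearIndependent.of_subsingleton () hne
    · rw [Submodule.disjoint_def]
      intro x hx hx'
      have h1 : x ∈ LinearMap.range A := by
        have : Submodule.span ℝ (Set.range fun i => ((b i : LinearMap.range A) : M)) ≤
            LinearMap.range A := by
          rw [Submodule.span_le]
          rintro _ ⟨i, rfl⟩
          exact (b i).2
        exact this hx
      have h2 : x ∈ LinearMap.ker A := by
        have : Submodule.span ℝ (Set.range fun _ : Unit => B z) ≤ LinearMap.ker A := by
          rw [Submodule.span_le]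
          rintro _ ⟨_, rfl⟩
          change A (B z) = 0
          rw [hAB, hz, map_zero]
        exact this hx'
      obtain ⟨y, rfl⟩ := h1
      exact hA y h2
  have hcont : Continuous v := by
    apply continuous_pi
    rintro (i | _)
    · change Continuous fun e : ℝ => A (w i) + e • B (w i)
      fun_prop
    · exact continuous_const
  have hopen : IsOpen {e : ℝ | LinearIndependent ℝ (v e)} :=
    isOpen_setOfPred_linearIndependent.preimage hcont
  have hev : ∀ᶠ e in 𝓝[≠] (0 : ℝ), LinearIndependent ℝ (v e) :=
    mem_nhdsWithin_of_mem_nhds (hopen.mem_nhds hv0)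
  obtain ⟨e, he, he0⟩ := (hev.and self_mem_nhdsWithin).exists
  have he0' : e ≠ 0 := he0
  have h1 : Submodule.span ℝ (Set.range (v e)) ≤ LinearMap.range (A + e • B) := by
    rw [Submodule.span_le]
    rintro _ ⟨j, rfl⟩
    rcases j with i | _
    · exact ⟨w i, rfl⟩
    · refine ⟨e⁻¹ • z, ?_⟩
      change A (e⁻¹ • z) + e • B (e⁻¹ • z) = B z
      rw [map_smul, hz, smul_zero, zero_add, map_smul, smul_smul, mul_inv_cancel₀ he0', one_smul]
  have h2 := Submodule.finrank_mono h1
  rw [finrank_span_eq_card he] at h2
  simp only [Fintype.card_sum, Fintype.card_fin, Fintype.card_unit] at h2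
  have := hr e
  omega

end Pool.Agent.TH78.TIG
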