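import Pool.Agent.TH78.TIG.Lie
import Pool.Agent.TH78.TIG.Rank

set_option autoImplicit false

/-! Maximal commutative subalgebras of the Lie algebra of a closed subgroup of the unitary group. -/

namespace Pool.Agent.TH78.TIG

open Matrix Filter Topology
open Pool.LatH472

variable {ι : Type} [Fintype ι] [DecidableEq ι] {L : Subgroup (UU ι)}

/-- self-centralising subsets -/
def IsCar (L : Subgroup (UU ι)) (T : Set (Matrix ι ι ℂ)) : Prop :=
  ∀ X, X ∈ T ↔ X ∈ LieAlg L ∧ ∀ Y ∈ T, X * Y = Y * X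

theorem IsCar.lie {T : Set (Matrix ι ι ℂ)} (h : IsCar L T) {X : Matrix ι ι ℂ} (hX : X ∈ T) :
    X ∈ LieAlg L := ((h X).1 hX).1

theorem IsCar.comm {T : Set (Matrix ι ι ℂ)} (h : IsCar L T) {X Y : Matrix ι ι ℂ} (hX : X ∈ T)
    (hY : Y ∈ T) : X * Y = Y * X := ((h X).1 hX).2 Y hY

theorem IsCar.add (hL : IsClosed (L : Set (UU ι))) {T : Set (Matrix ι ι ℂ)} (h : IsCar L T)
    {X Y : Matrix ι ι ℂ} (hX : X ∈ T) (hY : Y ∈ T) : X + Y ∈ T := by
  refine (h _).2 ⟨(lieS L hL).add_mem (h.lie hX) (h.lie hY), fun Z hZ => ?_⟩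
  rw [add_mul, mul_add, h.comm hX hZ, h.comm hY hZ]

theorem IsCar.smul {T : Set (Matrix ι ι ℂ)} (h : IsCar L T)
    {X : Matrix ι ι ℂ} (hX : X ∈ T) (c : ℝ) : c • X ∈ T := by
  refine (h _).2 ⟨lie_smul (h.lie hX) c, fun Z hZ => ?_⟩
  rw [smul_mul_assoc, mul_smul_comm, h.comm hX hZ]

theorem IsCar.zero {T : Set (Matrix ι ι ℂ)} (h : IsCar L T) : (0 : Matrix ι ι ℂ) ∈ T :=
  (h _).2 ⟨lie_zero, fun Y _ => by simp⟩

omit [DecidableEq ι] [Fintype ι] in
theorem skew_unique {P Q P' Q' : Matrix ι ι ℂ} (hP : Pᴴ = -P) (hQ : Qᴴ = -Q) (hP' : P'ᴴ = -P')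
    (hQ' : Q'ᴴ = -Q') (h : P + Complex.I • Q = P' + Complex.I • Q') : P = P' ∧ Q = Q' := by
  have h1 := congrArg conjTranspose h
  rw [conjTranspose_add, conjTranspose_add, conjTranspose_smul, conjTranspose_smul, hP, hQ, hP',
    hQ'] at h1
  have hI : star Complex.I = -Complex.I := Complex.conj_I
  rw [hI, neg_smul_neg, neg_smul_neg] at h1
  have h2 : (2 : ℂ) • (Complex.I • Q) = (2 : ℂ) • (Complex.I • Q') := by
    rw [two_smul, two_smul]
    calc Complex.I • Q + Complex.I • Q = (P + Complex.I • Q) + (-P + Complex.I • Q) := by abel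
      _ = (P' + Complex.I • Q') + (-P' + Complex.I • Q') := by rw [h, h1]
      _ = _ := by abel
  have h3 : Q = Q' := by
    have := smul_right_injective (Matrix ι ι ℂ) (two_ne_zero (α := ℂ)) h2
    exact smul_right_injective (Matrix ι ι ℂ) Complex.I_ne_zero this
  refine ⟨?_, h3⟩
  rw [h3] at h
  exact add_right_cancel h

theorem cj_skew (u : UU ι) {X : Matrix ι ι ℂ} (hX : Xᴴ = -X) : (cj u X)ᴴ = -cj u X := by
  unfold cj
  rw [conjTranspose_mul, conjTranspose_mul, conjTranspose_conjTranspose, hX]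
  simp [mul_assoc]

/-- every element of `L` normalises a maximal commutative subalgebra -/
theorem exists_car (hL : IsClosed (L : Set (UU ι))) {u : UU ι} (hu : u ∈ L) :
    ∃ T, IsCar L T ∧ ∀ X ∈ T, cj u X ∈ T := by
  let P : Set (Set (Matrix ι ι ℂ)) :=
    {S | ∀ X ∈ S, X ∈ LieAlg L ∧ cj u X = X ∧ ∀ Y ∈ S, X * Y = Y * X}
  have hPdef : ∀ S, S ∈ P ↔ ∀ X ∈ S, X ∈ LieAlg L ∧ cj u X = X ∧ ∀ Y ∈ S, X * Y = Y * X :=
    fun S => Iff.rfl
  obtain ⟨S, hS⟩ := zorn_subset P (by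
    intro c hc hch
    refine ⟨⋃₀ c, ?_, fun s hs => Set.subset_sUnion_of_mem hs⟩
    rintro X ⟨s, hs, hX⟩
    refine ⟨(hc hs X hX).1, (hc hs X hX).2.1, ?_⟩
    rintro Y ⟨t, ht, hY⟩
    rcases hch.total hs ht with hst | hst
    · exact (hc ht X (hst hX)).2.2 Y hY
    · exact (hc hs X hX).2.2 Y (hst hY))
  have hSP := (hPdef S).1 hS.prop
  have hmax : ∀ X, X ∈ LieAlg L → cj u X = X → (∀ Y ∈ S, X * Y = Y * X) → X ∈ S := by
    intro X h1 h2 h3
    have h4 : insert X S ∈ P := by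
      rw [hPdef]
      intro Z hZ
      rcases Set.mem_insert_iff.1 hZ with rfl | hZ
      · refine ⟨h1, h2, fun Y hY => ?_⟩
        rcases Set.mem_insert_iff.1 hY with rfl | hY
        · rfl
        · exact h3 Y hY
      · refine ⟨(hSP Z hZ).1, (hSP Z hZ).2.1, fun Y hY => ?_⟩
        rcases Set.mem_insert_iff.1 hY with hY | hY
        · rw [hY]; exact (h3 Z hZ).symm
        · exact (hSP Z hZ).2.2 Y hY
    have h5 := hS.le_of_ge h4 (Set.subset_insert X S)
    exact h5 (Set.mem_insert X S)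
  let T : Set (Matrix ι ι ℂ) := {X | X ∈ LieAlg L ∧ ∀ Y ∈ S, X * Y = Y * X}
  have hTdef : ∀ X, X ∈ T ↔ X ∈ LieAlg L ∧ ∀ Y ∈ S, X * Y = Y * X := fun X => Iff.rfl
  have hST : S ⊆ T := fun X hX => ⟨(hSP X hX).1, (hSP X hX).2.2⟩
  have Tadd : ∀ X ∈ T, ∀ Y ∈ T, X + Y ∈ T := by
    intro X hX Y hY
    refine ⟨(lieS L hL).add_mem hX.1 hY.1, fun Z hZ => ?_⟩
    rw [add_mul, mul_add, hX.2 Z hZ, hY.2 Z hZ]
  have Tsmul : ∀ X ∈ T, ∀ c : ℝ, c • X ∈ T := by
    intro X hX c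
    refine ⟨lie_smul hX.1 c, fun Z hZ => ?_⟩
    rw [smul_mul_assoc, mul_smul_comm, hX.2 Z hZ]
  have Tneg : ∀ X ∈ T, -X ∈ T := by
    intro X hX
    have := Tsmul X hX (-1)
    rwa [neg_one_smul] at this
  have T0 : (0 : Matrix ι ι ℂ) ∈ T := ⟨lie_zero, fun Y _ => by simp⟩
  have Tbr : ∀ X ∈ T, ∀ Y ∈ T, X * Y - Y * X ∈ T := by
    intro X hX Y hY
    refine ⟨lie_br hL hX.1 hY.1, fun Z hZ => ?_⟩
    have e1 : X * Y * Z = Z * (X * Y) := by
      rw [mul_assoc, hY.2 Z hZ, ← mul_assoc, hX.2 Z hZ, mul_assoc]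
    have e2 : Y * X * Z = Z * (Y * X) := by
      rw [mul_assoc, hX.2 Z hZ, ← mul_assoc, hY.2 Z hZ, mul_assoc]
    rw [sub_mul, mul_sub, e1, e2]
  have Tcj : ∀ X ∈ T, cj u X ∈ T := by
    intro X hX
    refine ⟨lie_cj hu hX.1, fun Z hZ => ?_⟩
    have h1 := (hSP Z hZ).2.1
    rw [← h1]
    exact (cj_comm u).2 (hX.2 Z hZ)
  let h : Submodule ℂ (Matrix ι ι ℂ) :=
    { carrier := {A | ∃ X ∈ T, ∃ Y ∈ T, A = X + Complex.I • Y}
      zero_mem' := ⟨0, T0, 0, T0, by simp⟩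
      add_mem' := by
        rintro _ _ ⟨X, hX, Y, hY, rfl⟩ ⟨X', hX', Y', hY', rfl⟩
        refine ⟨X + X', Tadd X hX X' hX', Y + Y', Tadd Y hY Y' hY', ?_⟩
        rw [smul_add]; abel
      smul_mem' := by
        rintro c _ ⟨X, hX, Y, hY, rfl⟩
        refine ⟨c.re • X + -(c.im • Y), Tadd _ (Tsmul X hX _) _ (Tneg _ (Tsmul Y hY _)),
          c.im • X + c.re • Y, Tadd _ (Tsmul X hX _) _ (Tsmul Y hY _), ?_⟩
        ext i j
        simp only [Matrix.smul_apply, Matrix.add_apply, Matrix.neg_apply, smul_eq_mul,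
          Complex.real_smul]
        conv_lhs => rw [← Complex.re_add_im c]
        have hI := Complex.I_mul_I
        linear_combination (c.im * Y i j : ℂ) * hI }
  have hhdef : ∀ A, A ∈ h ↔ ∃ X ∈ T, ∃ Y ∈ T, A = X + Complex.I • Y := fun A => Iff.rfl
  have hTh : ∀ X ∈ T, X ∈ h := fun X hX => ⟨X, hX, 0, T0, by simp⟩
  have cjadd : ∀ X Y : Matrix ι ι ℂ, cj u (X + Complex.I • Y) = cj u X + Complex.I • cj u Y := by
    intro X Y
    unfold cj
    rw [mul_add, add_mul, mul_smul_comm, smul_mul_assoc]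
  have hgood : Good (u : Matrix ι ι ℂ) h := by
    refine ⟨uu1 u, uu2 u, ?_, ?_, ?_, ?_⟩
    · rintro _ ⟨X, hX, Y, hY, rfl⟩ _ ⟨X', hX', Y', hY', rfl⟩
      refine ⟨(X * X' - X' * X) + -(Y * Y' - Y' * Y),
        Tadd _ (Tbr X hX X' hX') _ (Tneg _ (Tbr Y hY Y' hY')),
        (X * Y' - Y' * X) + (Y * X' - X' * Y),
        Tadd _ (Tbr X hX Y' hY') _ (Tbr Y hY X' hX'), ?_⟩
      simp only [add_mul, mul_add, smul_mul_assoc, mul_smul_comm, smul_smul, Complex.I_mul_I,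
        smul_add, smul_sub, neg_smul, one_smul]
      abel
    · rintro _ ⟨X, hX, Y, hY, rfl⟩
      refine ⟨-X, Tneg X hX, Y, hY, ?_⟩
      have hI : star Complex.I = -Complex.I := Complex.conj_I
      rw [conjTranspose_add, conjTranspose_smul, lie_skew hX.1, lie_skew hY.1, hI, neg_smul_neg]
    · rintro _ ⟨X, hX, Y, hY, rfl⟩
      exact ⟨cj u X, Tcj X hX, cj u Y, Tcj Y hY, cjadd X Y⟩
    · rintro _ ⟨X, hX, Y, hY, rfl⟩ hcomm
      have h1 : cj u (X + Complex.I • Y) = X + Complex.I • Y := by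
        change (u : Matrix ι ι ℂ) * (X + Complex.I • Y) * (u : Matrix ι ι ℂ)ᴴ = _
        rw [hcomm, mul_assoc, uu2, mul_one]
      rw [cjadd] at h1
      obtain ⟨h2, h3⟩ := skew_unique (cj_skew u (lie_skew hX.1)) (cj_skew u (lie_skew hY.1))
        (lie_skew hX.1) (lie_skew hY.1) h1
      have hXS := hmax X hX.1 h2 hX.2
      have hYS := hmax Y hY.1 h3 hY.2
      rintro _ ⟨X', hX', Y', hY', rfl⟩
      have e1 := hX'.2 X hXS
      have e2 := hX'.2 Y hYS
      have e3 := hY'.2 X hXS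
      have e4 := hY'.2 Y hYS
      simp only [add_mul, mul_add, smul_mul_assoc, mul_smul_comm, smul_add]
      rw [e1, e2, e3, e4]
      abel
  refine ⟨T, ?_, Tcj⟩
  intro X
  constructor
  · intro hX
    exact ⟨hX.1, fun Y hY => comm_all hgood (hTh X hX) (hTh Y hY)⟩
  · rintro ⟨h1, h2⟩
    exact ⟨h1, fun Y hY => h2 Y (hST hY)⟩

/-- commutation with `x` as an operator -/
def adR (x : Matrix ι ι ℂ) : Matrix ι ι ℂ →ₗ[ℝ] Matrix ι ι ℂ where
  toFun Z := x * Z - Z * x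
  map_add' Z W := by rw [mul_add, add_mul]; abel
  map_smul' c Z := by
    rw [mul_smul_comm, smul_mul_assoc, RingHom.id_apply, smul_sub]

theorem adR_apply (x Z : Matrix ι ι ℂ) : adR x Z = x * Z - Z * x := rfl

theorem adR_add (x y : Matrix ι ι ℂ) (e : ℝ) : adR (x + e • y) = adR x + e • adR y := by
  ext1 Z
  rw [LinearMap.add_apply, LinearMap.smul_apply, adR_apply, adR_apply, adR_apply, add_mul, mul_add,
    smul_mul_assoc, mul_smul_comm, smul_sub]
  abel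

section
set_option backward.isDefEq.respectTransparency false
open scoped Matrix.Norms.Frobenius

theorem adR_ker (x y : Matrix ι ι ℂ) (hxy : x * y = y * x) (hx : xᴴ = -x)
    (hr : ∀ e : ℝ, Module.finrank ℝ (LinearMap.range (adR (x + e • y))) ≤
      Module.finrank ℝ (LinearMap.range (adR x))) {z : Matrix ι ι ℂ} (hz : x * z = z * x) :
    y * z = z * y := by
  have h := ker_le_of_rank (adR x) (adR y) ?_ ?_ ?_ (z := z) (by rw [adR_apply, hz, sub_self])
  · rw [adR_apply] at h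
    exact sub_eq_zero.1 h
  · intro w
    rw [adR_apply, adR_apply, adR_apply, adR_apply, mul_sub, mul_sub, sub_mul, sub_mul]
    have e1 : x * (y * w) = y * (x * w) := by rw [← mul_assoc, hxy, mul_assoc]
    have e2 : w * y * x = w * x * y := by rw [mul_assoc, ← hxy, ← mul_assoc]
    rw [e1, e2, mul_assoc x w y, mul_assoc y w x]
    simp only [mul_assoc]
    abel
  · intro w hw
    rw [adR_apply, adR_apply] at hw
    rw [adR_apply]
    have hn : x * xᴴ = xᴴ * x := by rw [hx]; simp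
    exact sub_eq_zero.2 (comm_of_comm2 hn (sub_eq_zero.1 hw))
  · intro e
    rw [← adR_add]
    exact hr e

end

/-- regular elements -/
theorem exists_regular (hL : IsClosed (L : Set (UU ι))) {T : Set (Matrix ι ι ℂ)} (h : IsCar L T) :
    ∃ x ∈ T, ∀ Z : Matrix ι ι ℂ, x * Z = Z * x → ∀ y ∈ T, y * Z = Z * y := by
  obtain ⟨x, hx, hmax⟩ : ∃ x ∈ T, ∀ y ∈ T, Module.finrank ℝ (LinearMap.range (adR y)) ≤
      Module.finrank ℝ (LinearMap.range (adR x)) := by
    by_contra hcon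
    push Not at hcon
    have hbig : ∀ n : ℕ, ∃ x ∈ T, n ≤ Module.finrank ℝ (LinearMap.range (adR x)) := by
      intro n
      induction n with
      | zero => exact ⟨0, h.zero, Nat.zero_le _⟩
      | succ n ih =>
        obtain ⟨x, hx, hn⟩ := ih
        obtain ⟨y, hy, hlt⟩ := hcon x hx
        exact ⟨y, hy, by omega⟩
    obtain ⟨x, hx, hn⟩ := hbig (Module.finrank ℝ (Matrix ι ι ℂ) + 1)
    have := Submodule.finrank_le (LinearMap.range (adR x))
    omega
  refine ⟨x, hx, fun Z hZ y hy => ?_⟩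
  exact adR_ker x y (h.comm hx hy) (lie_skew (h.lie hx))
    (fun e => hmax _ (h.add hL hx (h.smul hy e))) hZ

end Pool.Agent.TH78.TIG
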