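import Pool.Agent.TH78.TIG.Car
import Pool.Agent.Helper472.Lat_CST2

set_option autoImplicit false

/-! Conjugacy of maximal commutative subalgebras, and the normaliser. -/

namespace Pool.Agent.TH78.TIG

open Matrix Filter Topology
open Pool.LatH472

variable {ι : Type} [Fintype ι] [DecidableEq ι] {L : Subgroup (UU ι)}

section
set_option backward.isDefEq.respectTransparency false
open scoped Matrix.Norms.Frobenius

theorem zero_of_re {D : Matrix ι ι ℂ} (hD : Dᴴ = -D) (h : (trace (D * D)).re = 0) : D = 0 := by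
  have h1 := TTL_trsq D
  rw [hD, neg_mul, trace_neg, Complex.neg_re, h, neg_zero] at h1
  exact norm_eq_zero.1 ((pow_eq_zero_iff two_ne_zero).1 h1.symm)

end

/-- the functional `Y ↦ Re tr (Y x')` -/
noncomputable def fn (x' : Matrix ι ι ℂ) : Matrix ι ι ℂ →ₗ[ℝ] ℝ where
  toFun Y := (trace (Y * x')).re
  map_add' Y Z := by rw [add_mul, trace_add, Complex.add_re]
  map_smul' c Y := by
    rw [smul_mul_assoc, trace_smul, Complex.smul_re]; rfl

theorem fn_apply (x' Y : Matrix ι ι ℂ) : fn x' Y = (trace (Y * x')).re := rfl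

theorem lie_exp {Z : Matrix ι ι ℂ} (hZ : Z ∈ LieAlg L) (t : ℝ) : ∃ v ∈ L,
    ∀ X, cj v X = NormedSpace.exp (t • Z) * X * NormedSpace.exp (t • (-Z)) := by
  obtain ⟨v, hv, h⟩ := hZ.2 t
  exact ⟨v, hv, fun X => exp_cj hZ.1 t v h X⟩

/-- the minimising argument: some conjugate of `x` commutes with `x'` -/
theorem hunt (hL : IsClosed (L : Set (UU ι))) {x x' : Matrix ι ι ℂ} (hx : x ∈ LieAlg L)
    (hx' : x' ∈ LieAlg L) : ∃ k ∈ L, cj k x * x' = x' * cj k x := by
  have hc : CompactSpace (UU ι) := TTL_compact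
  have hLc : IsCompact (L : Set (UU ι)) := hL.isCompact
  have hcont : Continuous fun k : UU ι => fn x' (cj k x) := by
    have h1 : Continuous fun k : UU ι => cj k x := by
      unfold cj
      have h2 : Continuous fun k : UU ι => (k : Matrix ι ι ℂ) := continuous_subtype_val
      exact (h2.matrix_mul continuous_const).matrix_mul h2.matrix_conjTranspose
    have h3 : Continuous fun k : UU ι => trace (cj k x * x') :=
      (h1.matrix_mul continuous_const).matrix_trace
    exact Complex.continuous_re.comp h3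
  obtain ⟨k, hk, hmax⟩ := hLc.exists_isMaxOn ⟨1, L.one_mem⟩ hcont.continuousOn
  refine ⟨k, hk, ?_⟩
  have hX := lie_cj hk hx
  set X := cj k x with hXdef
  have hder : ∀ Z ∈ LieAlg L, fn x' (Z * X - X * Z) = 0 := by
    intro Z hZ
    apply const_deriv (fn x') (deriv_conj Z X)
    intro t
    obtain ⟨v, hv, h1⟩ := lie_exp hZ t
    have h2 : NormedSpace.exp ((0 : ℝ) • Z) * X * NormedSpace.exp ((0 : ℝ) • (-Z)) = X := by
      rw [zero_smul, zero_smul, NormedSpace.exp_zero, one_mul, mul_one]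
    rw [← h1, h2, hXdef, ← cj_mul]
    exact hmax (L.mul_mem hv hk)
  have hC := lie_br hL hX hx'
  set C := X * x' - x' * X with hCdef
  have h1 := hder C hC
  rw [fn_apply] at h1
  have h2 : trace ((C * X - X * C) * x') = trace (C * C) := by
    have e0 : trace (C * C) = trace (C * (X * x')) - trace (C * (x' * X)) := by
      rw [← trace_sub, ← mul_sub, ← hCdef]
    rw [e0, sub_mul, trace_sub]
    congr 1
    · rw [mul_assoc]
    · rw [mul_assoc, trace_mul_comm, mul_assoc]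
  have h3 : C = 0 := by
    apply zero_of_re (lie_skew hC)
    rw [← h2, h1]
  exact sub_eq_zero.1 h3

/-- all maximal commutative subalgebras are conjugate -/
theorem car_conj (hL : IsClosed (L : Set (UU ι))) {T T' : Set (Matrix ι ι ℂ)} (h : IsCar L T)
    (h' : IsCar L T') : ∃ k ∈ L, ∀ X, X ∈ T ↔ cj k X ∈ T' := by
  obtain ⟨x, hx, hreg⟩ := exists_regular hL h
  obtain ⟨x', hx', hreg'⟩ := exists_regular hL h'
  obtain ⟨k, hk, hcomm⟩ := hunt hL (h.lie hx) (h'.lie hx')
  -- `cj k x` commutes with `T'`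
  have h1 : ∀ y ∈ T', y * cj k x = cj k x * y := hreg' _ hcomm.symm
  -- elements of `T'` commute with `cj k T`
  have h2 : ∀ y ∈ T', ∀ X ∈ T, cj k X * y = y * cj k X := by
    intro y hy X hX
    have h3 : x * cj k⁻¹ y = cj k⁻¹ y * x := by
      apply (cj_comm k).1
      rw [cj_cj_inv]
      exact (h1 y hy).symm
    have h4 := hreg _ h3 X hX
    have h5 := (cj_comm k).2 h4
    rwa [cj_cj_inv] at h5
  refine ⟨k, hk, fun X => ⟨fun hX => ?_, fun hX => ?_⟩⟩
  · exact (h' _).2 ⟨lie_cj hk (h.lie hX), fun y hy => h2 y hy X hX⟩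
  · refine (h _).2 ⟨?_, fun Y hY => ?_⟩
    · have := lie_cj (L.inv_mem hk) (h'.lie hX)
      rwa [cj_inv_cj] at this
    · exact (cj_comm k).1 (h2 _ hX Y hY).symm

/-- the normaliser of `T` -/
def nrm (L : Subgroup (UU ι)) (T : Set (Matrix ι ι ℂ)) (h : IsCar L T) : Subgroup (UU ι) where
  carrier := {u | u ∈ L ∧ ∀ X ∈ T, cj u X ∈ T}
  one_mem' := ⟨L.one_mem, fun X hX => by rwa [cj_one]⟩
  mul_mem' := fun {u v} hu hv => ⟨L.mul_mem hu.1 hv.1, fun X hX => by
    rw [cj_mul]; exact hu.2 _ (hv.2 _ hX)⟩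
  inv_mem' := fun {u} hu => ⟨L.inv_mem hu.1, fun X hX => by
    refine (h _).2 ⟨lie_cj (L.inv_mem hu.1) (h.lie hX), fun Y hY => ?_⟩
    apply (cj_comm u).1
    rw [cj_cj_inv]
    exact h.comm hX (hu.2 Y hY)⟩

theorem mem_nrm {T : Set (Matrix ι ι ℂ)} {h : IsCar L T} {u : UU ι} :
    u ∈ nrm L T h ↔ u ∈ L ∧ ∀ X ∈ T, cj u X ∈ T := Iff.rfl

theorem cont_cj (X : Matrix ι ι ℂ) : Continuous fun k : UU ι => cj k X := by
  unfold cj
  have h2 : Continuous fun k : UU ι => (k : Matrix ι ι ℂ) := continuous_subtype_val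
  exact (h2.matrix_mul continuous_const).matrix_mul h2.matrix_conjTranspose

theorem nrm_closed (hL : IsClosed (L : Set (UU ι))) {T : Set (Matrix ι ι ℂ)} (h : IsCar L T) :
    IsClosed (nrm L T h : Set (UU ι)) := by
  have h1 : (nrm L T h : Set (UU ι)) =
      (L : Set (UU ι)) ∩ ⋂ X ∈ T, ⋂ Y ∈ T, {u : UU ι | cj u X * Y = Y * cj u X} := by
    ext u
    simp only [Set.mem_inter_iff, Set.mem_iInter, SetLike.mem_coe]
    constructor
    · rintro ⟨hu, hu2⟩
      exact ⟨hu, fun X hX Y hY => h.comm (hu2 X hX) hY⟩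
    · rintro ⟨hu, hu2⟩
      exact ⟨hu, fun X hX => (h _).2 ⟨lie_cj hu (h.lie hX), fun Y hY => hu2 X hX Y hY⟩⟩
  rw [h1]
  apply hL.inter
  refine isClosed_biInter fun X _ => isClosed_biInter fun Y _ => ?_
  exact isClosed_eq ((cont_cj X).matrix_mul continuous_const)
    (continuous_const.matrix_mul (cont_cj X))

/-- if `L` normalises `T`, the Lie algebra is commutative -/
theorem comm_of_nrm (hL : IsClosed (L : Set (UU ι))) {T : Set (Matrix ι ι ℂ)} (h : IsCar L T)
    (hn : ∀ u ∈ L, u ∈ nrm L T h) : ∀ X ∈ LieAlg L, ∀ Y ∈ LieAlg L, X * Y = Y * X := by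
  let S : Submodule ℝ (Matrix ι ι ℂ) :=
    { carrier := T
      zero_mem' := h.zero
      add_mem' := fun hX hY => h.add hL hX hY
      smul_mem' := fun c _ hX => h.smul hX c }
  -- `[Z, X] ∈ T`
  have h1 : ∀ Z ∈ LieAlg L, ∀ X ∈ T, Z * X - X * Z ∈ T := by
    intro Z hZ X hX
    apply closed_limit S (deriv_conj Z X)
    intro t
    obtain ⟨v, hv, h2⟩ := lie_exp hZ t
    rw [← h2]
    exact (hn v hv).2 X hX
  have h2 : ∀ Z ∈ LieAlg L, ∀ X ∈ T, Z * X = X * Z := by
    intro Z hZ X hX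
    have hW := h1 Z hZ X hX
    set W := Z * X - X * Z with hWdef
    have h3 : trace (W * W) = 0 := by
      have e0 : trace (W * W) = trace (Z * X * W) - trace (X * Z * W) := by
        rw [← trace_sub, ← sub_mul, ← hWdef]
      rw [e0]
      have e1 : trace (X * Z * W) = trace (Z * (W * X)) := by
        rw [mul_assoc, trace_mul_comm, mul_assoc]
      rw [e1, mul_assoc, h.comm hX hW, sub_self]
    have h4 : W = 0 := zero_of_re (lie_skew (h.lie hW)) (by rw [h3]; rfl)
    exact sub_eq_zero.1 h4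
  have h3 : ∀ Z ∈ LieAlg L, Z ∈ T := fun Z hZ => (h Z).2 ⟨hZ, fun Y hY => h2 Z hZ Y hY⟩
  exact fun X hX Y hY => h.comm (h3 X hX) (h3 Y hY)

/-- the Lie case -/
theorem lie_case (hL : IsClosed (L : Set (UU ι)))
    (hne : ∃ X ∈ LieAlg L, ∃ Y ∈ LieAlg L, X * Y ≠ Y * X) :
    ∃ H : Subgroup (UU ι), IsClosed (H : Set (UU ι)) ∧ H ≤ L ∧ H ≠ L ∧
      ∀ u ∈ L, ∃ k ∈ L, k * u * k⁻¹ ∈ H := by
  obtain ⟨T, hT, -⟩ := exists_car hL L.one_mem
  refine ⟨nrm L T hT, nrm_closed hL hT, fun u hu => hu.1, ?_, ?_⟩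
  · intro heq
    obtain ⟨X, hX, Y, hY, hXY⟩ := hne
    apply hXY
    exact comm_of_nrm hL hT (fun u hu => by rw [heq]; exact hu) X hX Y hY
  · intro u hu
    obtain ⟨T', hT', hu'⟩ := exists_car hL hu
    obtain ⟨k, hk, hconj⟩ := car_conj hL hT' hT
    refine ⟨k, hk, L.mul_mem (L.mul_mem hk hu) (L.inv_mem hk), fun X hX => ?_⟩
    rw [cj_mul, cj_mul]
    apply (hconj _).1
    apply hu'
    apply (hconj _).2
    rwa [cj_cj_inv]

end Pool.Agent.TH78.TIG
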