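import Pool.Agent.TH78.TIG.Lin

set_option autoImplicit false

/-! The key lemma: a self-adjoint matrix Lie algebra normalised by a unitary matrix `u`, in which
the elements commuting with `u` are central, is commutative. -/

namespace Pool.Agent.TH78.TIG

open Matrix
open scoped ComplexOrder ComplexConjugate

theorem exists_coprime (a b m : ℕ) (hm : m ≠ 0) (h : Nat.gcd a (Nat.gcd b m) = 1) :
    ∃ k : ℕ, Nat.Coprime (b + k * a) m := by
  refine ⟨∏ p ∈ m.primeFactors.filter (fun p => ¬ p ∣ b), p, ?_⟩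
  by_contra hcon
  obtain ⟨p, hp, h1, h2⟩ := Nat.Prime.not_coprime_iff_dvd.1 hcon
  by_cases hb : p ∣ b
  · have h3 := (Nat.dvd_add_right hb).1 h1
    rcases (Nat.Prime.dvd_mul hp).1 h3 with h4 | h4
    · obtain ⟨q, hq, hpq⟩ := (Prime.dvd_finsetProd_iff hp.prime _).1 h4
      rw [Finset.mem_filter, Nat.mem_primeFactors] at hq
      have : p = q := (Nat.prime_dvd_prime_iff_eq hp hq.1.1).1 hpq
      subst this
      exact hq.2 hb
    · have := Nat.dvd_gcd h4 (Nat.dvd_gcd hb h2)
      rw [h] at this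
      exact hp.one_lt.ne' (Nat.dvd_one.1 this)
  · have h3 : p ∣ ∏ p ∈ m.primeFactors.filter (fun p => ¬ p ∣ b), p := by
      apply Finset.dvd_prod_of_mem
      rw [Finset.mem_filter, Nat.mem_primeFactors]
      exact ⟨⟨hp, h2, hm⟩, hb⟩
    exact hb ((Nat.dvd_add_left (h3.mul_right a)).1 h1)

variable {ι : Type} [Fintype ι] [DecidableEq ι]

structure Good (u : Matrix ι ι ℂ) (h : Submodule ℂ (Matrix ι ι ℂ)) : Prop where
  uu : uᴴ * u = 1
  uu' : u * uᴴ = 1
  br : ∀ A ∈ h, ∀ B ∈ h, A * B - B * A ∈ h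
  st : ∀ A ∈ h, Aᴴ ∈ h
  cj : ∀ A ∈ h, u * A * uᴴ ∈ h
  ce : ∀ A ∈ h, u * A = A * u → ∀ B ∈ h, A * B = B * A

/-- eigenvectors of conjugation by `u` -/
def Eig (u : Matrix ι ι ℂ) (h : Submodule ℂ (Matrix ι ι ℂ)) (l : ℂ) (A : Matrix ι ι ℂ) : Prop :=
  A ∈ h ∧ u * A = l • (A * u)

variable {u : Matrix ι ι ℂ} {h : Submodule ℂ (Matrix ι ι ℂ)}

theorem Eig.br (H : Good u h) {l m : ℂ} {A B : Matrix ι ι ℂ} (hA : Eig u h l A)
    (hB : Eig u h m B) : Eig u h (l * m) (A * B - B * A) := by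
  refine ⟨H.br A hA.1 B hB.1, ?_⟩
  rw [mul_sub, sub_mul, smul_sub, ← mul_assoc u A B, hA.2, ← mul_assoc u B A, hB.2]
  rw [smul_mul_assoc, smul_mul_assoc, mul_assoc A u B, hB.2, mul_assoc B u A, hA.2]
  rw [mul_smul_comm, mul_smul_comm, smul_smul, smul_smul, mul_comm m l, mul_assoc, mul_assoc]

theorem Eig.ad (H : Good u h) {l m : ℂ} {A B : Matrix ι ι ℂ} (hA : Eig u h l A)
    (hB : Eig u h m B) (k : ℕ) : Eig u h (l ^ k * m) (TIG.ad A k B) := by
  induction k with
  | zero => rw [pow_zero, one_mul]; exact hB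
  | succ k ih =>
    have := Eig.br H hA ih
    rw [← mul_assoc, ← pow_succ'] at this
    exact this

theorem Eig.st (H : Good u h) {l : ℂ} {A : Matrix ι ι ℂ} (hA : Eig u h l A) :
    Eig u h (conj l) Aᴴ := by
  refine ⟨H.st A hA.1, ?_⟩
  have h1 := congrArg conjTranspose hA.2
  rw [conjTranspose_mul, conjTranspose_smul, conjTranspose_mul] at h1
  have h2 : u * (Aᴴ * uᴴ) * u = u * (star l • (uᴴ * Aᴴ)) * u := by rw [h1]
  rw [mul_assoc u, mul_assoc Aᴴ, H.uu, mul_one, mul_smul_comm, ← mul_assoc u, H.uu', one_mul,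
    smul_mul_assoc] at h2
  exact h2

theorem Eig.norm (H : Good u h) {l : ℂ} {A : Matrix ι ι ℂ} (hA : Eig u h l A) (h0 : A ≠ 0) :
    l * conj l = 1 := by
  have h1 : trace ((u * A)ᴴ * (u * A)) = trace (Aᴴ * A) := by
    rw [conjTranspose_mul, mul_assoc, ← mul_assoc uᴴ, H.uu, one_mul]
  rw [hA.2, conjTranspose_smul, conjTranspose_mul, smul_mul_assoc, mul_smul_comm, smul_smul,
    trace_smul, mul_assoc, trace_mul_comm, mul_assoc, mul_assoc, H.uu', mul_one] at h1
  have h2 : trace (Aᴴ * A) ≠ 0 := fun hc => h0 (tr0 hc)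
  have h3 : (star l * l - 1) * trace (Aᴴ * A) = 0 := by
    rw [sub_mul, one_mul, ← smul_eq_mul, h1, sub_self]
  rcases mul_eq_zero.1 h3 with h4 | h4
  · rw [mul_comm]
    exact sub_eq_zero.1 h4
  · exact absurd h4 h2

theorem Eig.central (H : Good u h) {A B : Matrix ι ι ℂ} (hA : Eig u h 1 A) (hB : B ∈ h) :
    A * B = B * A := by
  apply H.ce A hA.1 _ B hB
  rw [hA.2, one_smul]

theorem Eig.normal (H : Good u h) {l : ℂ} {A : Matrix ι ι ℂ} (hA : Eig u h l A) :
    A * Aᴴ = Aᴴ * A := by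
  by_cases h0 : A = 0
  · rw [h0]; simp
  apply normal_of_comm
  have h1 := Eig.br H hA (Eig.st H hA)
  rw [Eig.norm H hA h0] at h1
  exact (Eig.central H h1 hA.1).symm

/-- conjugation by `u` -/
def cjL (u : Matrix ι ι ℂ) : Module.End ℂ (Matrix ι ι ℂ) where
  toFun A := u * A * uᴴ
  map_add' A B := by rw [mul_add, add_mul]
  map_smul' c A := by rw [mul_smul_comm, smul_mul_assoc]; rfl

theorem cjL_apply (u A : Matrix ι ι ℂ) : cjL u A = u * A * uᴴ := rfl

theorem cjL_eig (H : Good u h) {l : ℂ} {A : Matrix ι ι ℂ} :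
    cjL u A = l • A ↔ u * A = l • (A * u) := by
  rw [cjL_apply]
  constructor
  · intro h1
    have h2 : u * A * uᴴ * u = l • A * u := by rw [h1]
    rwa [mul_assoc, H.uu, mul_one, smul_mul_assoc] at h2
  · intro h1
    rw [h1, smul_mul_assoc, mul_assoc, H.uu', mul_one]

theorem finite_eig (H : Good u h) : {l : ℂ | ∃ A, A ≠ 0 ∧ Eig u h l A}.Finite := by
  apply (Module.End.finite_hasEigenvalue (cjL u)).subset
  rintro l ⟨A, hA, h1⟩
  apply Module.End.hasEigenvalue_of_hasEigenvector (x := A)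
  exact ⟨Module.End.mem_eigenspace_iff.2 ((cjL_eig H).2 h1.2), hA⟩

theorem comm_inf (H : Good u h) {l m : ℂ} {A B : Matrix ι ι ℂ} (hA : Eig u h l A)
    (hB : Eig u h m B) (hl : ∀ n : ℕ, 0 < n → l ^ n ≠ 1) : A * B = B * A := by
  by_cases hA0 : A = 0
  · rw [hA0]; simp
  by_cases hB0 : B = 0
  · rw [hB0]; simp
  have hl0 : l ≠ 0 := by
    rintro rfl
    have := Eig.norm H hA hA0
    simp at this
  have hm0 : m ≠ 0 := by
    rintro rfl
    have := Eig.norm H hB hB0
    simp at this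
  have hinj : Function.Injective (fun k : ℕ => l ^ k * m) := by
    intro i j hij
    have h1 : l ^ i = l ^ j := mul_right_cancel₀ hm0 hij
    by_contra hne
    rcases lt_or_gt_of_ne hne with hlt | hlt
    · apply hl (j - i) (by omega)
      have h2 : l ^ (j - i) * l ^ i = 1 * l ^ i := by
        rw [← pow_add, one_mul, h1]; congr 1; omega
      exact mul_right_cancel₀ (pow_ne_zero _ hl0) h2
    · apply hl (i - j) (by omega)
      have h2 : l ^ (i - j) * l ^ j = 1 * l ^ j := by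
        rw [← pow_add, one_mul, ← h1]; congr 1; omega
      exact mul_right_cancel₀ (pow_ne_zero _ hl0) h2
  obtain ⟨k, hk⟩ : ∃ k : ℕ, TIG.ad A (k + 1) B = 0 := by
    by_contra hcon
    push Not at hcon
    have hinf : (Set.range (fun k : ℕ => l ^ (k + 1) * m)).Infinite := by
      apply Set.infinite_range_of_injective
      intro i j hij
      have := hinj hij
      omega
    apply hinf
    apply (finite_eig H).subset
    rintro _ ⟨k, rfl⟩
    exact ⟨_, hcon k, Eig.ad H hA hB (k + 1)⟩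
  exact comm_of_ad (Eig.normal H hA) k hk

theorem comm_fin (H : Good u h) (n : ℕ) : 0 < n → ∀ {l m : ℂ} {A B : Matrix ι ι ℂ},
    Eig u h l A → Eig u h m B → l ^ n = 1 → m ^ n = 1 → A * B = B * A := by
  induction n using Nat.strong_induction_on with
  | _ n ih =>
  intro hn l m A B hA hB hl hm
  have : NeZero n := ⟨hn.ne'⟩
  have hz := Complex.isPrimitiveRoot_exp n hn.ne'
  set z := Complex.exp (2 * Real.pi * Complex.I / n) with hzdef
  obtain ⟨a, -, ha⟩ := hz.eq_pow_of_pow_eq_one hl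
  obtain ⟨b, -, hb⟩ := hz.eq_pow_of_pow_eq_one hm
  by_cases hg : Nat.gcd a (Nat.gcd b n) = 1
  · obtain ⟨k, hk⟩ := exists_coprime a b n hn.ne' hg
    have hprim : IsPrimitiveRoot (l ^ k * m) n := by
      have := hz.pow_of_coprime _ hk
      rwa [pow_add, pow_mul', ha, hb, mul_comm] at this
    have hC := Eig.ad H hA hB k
    set C := TIG.ad A k B with hCdef
    have hCA : C * A = A * C := by
      -- find `j` with `(l ^ k * m) ^ j * l = 1`
      obtain ⟨i, -, hi⟩ := hprim.eq_pow_of_pow_eq_one hl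
      obtain ⟨j, hj⟩ : ∃ j : ℕ, (l ^ k * m) ^ j * l = 1 := by
        refine ⟨n * i - i, ?_⟩
        have h1 : (l ^ k * m) ^ (n * i - i) * (l ^ k * m) ^ i = 1 := by
          rw [← pow_add]
          have : n * i - i + i = n * i := Nat.sub_add_cancel (Nat.le_mul_of_pos_left i hn)
          rw [this, pow_mul, hprim.pow_eq_one, one_pow]
        rwa [hi] at h1
      have h2 := Eig.ad H hC hA j
      rw [hj] at h2
      have h3 := Eig.central H h2 hC.1
      apply comm_of_ad (Eig.normal H hC) j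
      change C * TIG.ad C j A - TIG.ad C j A * C = 0
      rw [h3, sub_self]
    apply comm_of_ad (Eig.normal H hA) k
    change A * TIG.ad A k B - TIG.ad A k B * A = 0
    rw [← hCdef, hCA, sub_self]
  · set g := Nat.gcd a (Nat.gcd b n) with hgdef
    have hgn : g ∣ n := (Nat.gcd_dvd_right a _).trans (Nat.gcd_dvd_right b n)
    have hga : g ∣ a := Nat.gcd_dvd_left a _
    have hgb : g ∣ b := (Nat.gcd_dvd_right a _).trans (Nat.gcd_dvd_left b n)
    obtain ⟨n', hn'⟩ := hgn
    obtain ⟨a', ha'⟩ := hga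
    obtain ⟨b', hb'⟩ := hgb
    have hn'0 : 0 < n' := by
      rcases Nat.eq_zero_or_pos n' with h0 | h0
      · rw [h0, mul_zero] at hn'; omega
      · exact h0
    have hg0 : g ≠ 0 := by
      rintro h0
      rw [h0, zero_mul] at hn'
      omega
    have hlt : n' < n := by
      rw [hn']
      have : 2 ≤ g := by omega
      nlinarith
    apply ih n' hlt hn'0 hA hB
    · rw [← ha, ha', ← pow_mul]
      have : g * a' * n' = n * a' := by rw [hn']; ring
      rw [this, pow_mul, hz.pow_eq_one, one_pow]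
    · rw [← hb, hb', ← pow_mul]
      have : g * b' * n' = n * b' := by rw [hn']; ring
      rw [this, pow_mul, hz.pow_eq_one, one_pow]

theorem comm_eig (H : Good u h) {l m : ℂ} {A B : Matrix ι ι ℂ} (hA : Eig u h l A)
    (hB : Eig u h m B) : A * B = B * A := by
  by_cases h1 : ∀ n : ℕ, 0 < n → l ^ n ≠ 1
  · exact comm_inf H hA hB h1
  by_cases h2 : ∀ n : ℕ, 0 < n → m ^ n ≠ 1
  · exact (comm_inf H hB hA h2).symm
  push Not at h1 h2
  obtain ⟨a, ha, ha1⟩ := h1
  obtain ⟨b, hb, hb1⟩ := h2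
  apply comm_fin H (a * b) (Nat.mul_pos ha hb) hA hB
  · rw [pow_mul, ha1, one_pow]
  · rw [mul_comm, pow_mul, hb1, one_pow]

theorem eigen_sq (H : Good u h) {l : ℂ} {x : Matrix ι ι ℂ}
    (hx : (cjL u - l • 1) ((cjL u - l • 1) x) = 0) : (cjL u - l • 1) x = 0 := by
  set y := (cjL u - l • (1 : Module.End ℂ (Matrix ι ι ℂ))) x with hy
  have hy1 : cjL u y = l • y := by
    have h1 : cjL u y - l • y = 0 := hx
    exact sub_eq_zero.1 h1
  have hy2 := (cjL_eig H).1 hy1
  have hy3 : y = u * x * uᴴ - l • x := rfl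
  by_contra hy0
  -- `|l| = 1`
  have hn : l * conj l = 1 := by
    have h1 : trace ((u * y)ᴴ * (u * y)) = trace (yᴴ * y) := by
      rw [conjTranspose_mul, mul_assoc, ← mul_assoc uᴴ, H.uu, one_mul]
    rw [hy2, conjTranspose_smul, conjTranspose_mul, smul_mul_assoc, mul_smul_comm, smul_smul,
      trace_smul, mul_assoc, trace_mul_comm, mul_assoc, mul_assoc, H.uu', mul_one] at h1
    have h2 : trace (yᴴ * y) ≠ 0 := fun hc => hy0 (tr0 hc)
    have h3 : (star l * l - 1) * trace (yᴴ * y) = 0 := by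
      rw [sub_mul, one_mul, ← smul_eq_mul, h1, sub_self]
    rcases mul_eq_zero.1 h3 with h4 | h4
    · rw [mul_comm]
      exact sub_eq_zero.1 h4
    · exact absurd h4 h2
  have h4 : yᴴ * u = l • (u * yᴴ) := by
    have h1 := congrArg conjTranspose hy2
    rw [conjTranspose_mul, conjTranspose_smul, conjTranspose_mul] at h1
    have h2 : u * (yᴴ * uᴴ) * u = u * (star l • (uᴴ * yᴴ)) * u := by rw [h1]
    rw [mul_assoc u, mul_assoc yᴴ, H.uu, mul_one, mul_smul_comm, ← mul_assoc u, H.uu', one_mul,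
      smul_mul_assoc] at h2
    rw [h2, smul_smul]
    have : l * star l = 1 := hn
    rw [this, one_smul]
  have h5 : trace (yᴴ * (u * x * uᴴ)) = l * trace (yᴴ * x) := by
    rw [mul_assoc u, ← mul_assoc yᴴ, h4, smul_mul_assoc, trace_smul, smul_eq_mul]
    congr 1
    rw [trace_mul_comm, mul_assoc x, ← mul_assoc uᴴ, H.uu, one_mul, trace_mul_comm]
  have h6 : trace (yᴴ * y) = 0 := by
    have h7 : yᴴ * y = yᴴ * (u * x * uᴴ) - yᴴ * (l • x) := by rw [← mul_sub, ← hy3]
    rw [h7, trace_sub, h5, mul_smul_comm, trace_smul, smul_eq_mul, sub_self]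
  exact hy0 (tr0 h6)

theorem maxGen_le (H : Good u h) (l : ℂ) :
    (cjL u).maxGenEigenspace l ≤ (cjL u).eigenspace l := by
  intro x hx
  rw [Module.End.mem_maxGenEigenspace] at hx
  obtain ⟨k, hk⟩ := hx
  rw [Module.End.mem_eigenspace_iff]
  have key : ∀ k : ℕ, ∀ x, ((cjL u - l • (1 : Module.End ℂ (Matrix ι ι ℂ))) ^ (k + 1)) x = 0 →
      (cjL u - l • (1 : Module.End ℂ (Matrix ι ι ℂ))) x = 0 := by
    intro k
    induction k with
    | zero => intro x hx; rwa [zero_add, pow_one] at hx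
    | succ k ih =>
      intro x hx
      rw [pow_succ] at hx
      exact eigen_sq H (ih _ hx)
  have h1 : (cjL u - l • (1 : Module.End ℂ (Matrix ι ι ℂ))) x = 0 := by
    apply key k
    rw [pow_succ', Module.End.mul_apply, hk, map_zero]
  exact sub_eq_zero.1 h1

theorem decomp (H : Good u h) : h ≤ ⨆ l, h ⊓ (cjL u).eigenspace l := by
  have h1 : h = ⨆ l, h ⊓ (cjL u).maxGenEigenspace l :=
    Submodule.eq_iSup_inf_genEigenspace _ (fun x hx => H.cj x hx)
      (Module.End.iSup_maxGenEigenspace_eq_top _)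
  conv_lhs => rw [h1]
  exact iSup_mono fun l => inf_le_inf_left _ (maxGen_le H l)

/-- the key lemma -/
theorem comm_all (H : Good u h) {A B : Matrix ι ι ℂ} (hA : A ∈ h) (hB : B ∈ h) :
    A * B = B * A := by
  have step : ∀ {m : ℂ} {B : Matrix ι ι ℂ}, Eig u h m B → ∀ {A}, A ∈ h → A * B = B * A := by
    intro m B hB A hA
    have hA' := decomp H hA
    clear hA
    induction hA' using Submodule.iSup_induction' with
    | mem l x hx =>
      exact comm_eig H ⟨hx.1, (cjL_eig H).1 (Module.End.mem_eigenspace_iff.1 hx.2)⟩ hB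
    | zero => simp
    | add x y hx hy ihx ihy => rw [add_mul, mul_add, ihx, ihy]
  have hB' := decomp H hB
  clear hB
  induction hB' using Submodule.iSup_induction' with
  | mem l x hx =>
    exact step ⟨hx.1, (cjL_eig H).1 (Module.End.mem_eigenspace_iff.1 hx.2)⟩ hA
  | zero => simp
  | add x y hx hy ihx ihy => rw [add_mul, mul_add, ihx, ihy]

end Pool.Agent.TH78.TIG
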