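import Pool.Agent.TH78.TIG.Key
import Pool.Agent.Helper472.Lat_CST1
import Pool.Agent.Helper472.Lat_TTL

set_option autoImplicit false

/-! The Lie algebra of a closed subgroup of the unitary group. -/

namespace Pool.Agent.TH78.TIG

open Matrix Filter Topology
open Pool.LatH472

variable {ι : Type} [Fintype ι] [DecidableEq ι]

abbrev UU (ι : Type) [Fintype ι] [DecidableEq ι] : Type := Matrix.unitaryGroup ι ℂ

theorem uu1 (u : UU ι) : (u : Matrix ι ι ℂ)ᴴ * (u : Matrix ι ι ℂ) = 1 :=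
  Matrix.mem_unitaryGroup_iff'.1 u.2

theorem uu2 (u : UU ι) : (u : Matrix ι ι ℂ) * (u : Matrix ι ι ℂ)ᴴ = 1 :=
  Matrix.mem_unitaryGroup_iff.1 u.2

theorem uinv (u : UU ι) : ((u⁻¹ : UU ι) : Matrix ι ι ℂ) = (u : Matrix ι ι ℂ)ᴴ := rfl

/-- conjugation -/
def cj (u : UU ι) (X : Matrix ι ι ℂ) : Matrix ι ι ℂ := (u : Matrix ι ι ℂ) * X * (u : Matrix ι ι ℂ)ᴴ

theorem cj_mul (u v : UU ι) (X : Matrix ι ι ℂ) : cj (u * v) X = cj u (cj v X) := by
  unfold cj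
  have : ((u * v : UU ι) : Matrix ι ι ℂ) = (u : Matrix ι ι ℂ) * (v : Matrix ι ι ℂ) := rfl
  rw [this, conjTranspose_mul]
  simp only [mul_assoc]

theorem cj_one (X : Matrix ι ι ℂ) : cj (1 : UU ι) X = X := by
  unfold cj
  have : ((1 : UU ι) : Matrix ι ι ℂ) = 1 := rfl
  rw [this]; simp

theorem cj_inv_cj (u : UU ι) (X : Matrix ι ι ℂ) : cj u⁻¹ (cj u X) = X := by
  rw [← cj_mul, inv_mul_cancel, cj_one]

theorem cj_cj_inv (u : UU ι) (X : Matrix ι ι ℂ) : cj u (cj u⁻¹ X) = X := by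
  rw [← cj_mul, mul_inv_cancel, cj_one]

theorem cj_prod (u : UU ι) (X Y : Matrix ι ι ℂ) : cj u (X * Y) = cj u X * cj u Y := by
  unfold cj
  have : (u : Matrix ι ι ℂ) * X * (u : Matrix ι ι ℂ)ᴴ * ((u : Matrix ι ι ℂ) * Y * (u : Matrix ι ι ℂ)ᴴ) =
    (u : Matrix ι ι ℂ) * X * ((u : Matrix ι ι ℂ)ᴴ * (u : Matrix ι ι ℂ)) * Y * (u : Matrix ι ι ℂ)ᴴ := by
    simp only [mul_assoc]
  rw [this, uu1]
  simp only [mul_assoc, one_mul]

theorem cj_inj (u : UU ι) {X Y : Matrix ι ι ℂ} (h : cj u X = cj u Y) : X = Y := by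
  rw [← cj_inv_cj u X, h, cj_inv_cj]

theorem cj_comm (u : UU ι) {X Y : Matrix ι ι ℂ} : cj u X * cj u Y = cj u Y * cj u X ↔ X * Y = Y * X := by
  rw [← cj_prod, ← cj_prod]
  exact ⟨fun h => cj_inj u h, fun h => by rw [h]⟩

variable {L : Subgroup (UU ι)}

theorem lie_skew {X : Matrix ι ι ℂ} (hX : X ∈ LieAlg L) : Xᴴ = -X := hX.1

theorem lie_zero : (0 : Matrix ι ι ℂ) ∈ LieAlg L := by
  refine ⟨by simp, fun t => ⟨1, L.one_mem, ?_⟩⟩
  rw [smul_zero, NormedSpace.exp_zero]; rfl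

theorem lie_smul {X : Matrix ι ι ℂ} (hX : X ∈ LieAlg L) (c : ℝ) : c • X ∈ LieAlg L := by
  refine ⟨CST1_skew c X hX.1, fun t => ?_⟩
  obtain ⟨u, hu, h⟩ := hX.2 (t * c)
  exact ⟨u, hu, by rw [h, smul_smul]⟩

theorem lie_cj {u : UU ι} (hu : u ∈ L) {X : Matrix ι ι ℂ} (hX : X ∈ LieAlg L) :
    cj u X ∈ LieAlg L := by
  refine ⟨?_, fun t => ?_⟩
  · unfold cj
    rw [conjTranspose_mul, conjTranspose_mul, conjTranspose_conjTranspose, hX.1]
    simp [mul_assoc]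
  · obtain ⟨v, hv, h⟩ := hX.2 t
    refine ⟨u * v * u⁻¹, L.mul_mem (L.mul_mem hu hv) (L.inv_mem hu), ?_⟩
    have h1 : ((u * v * u⁻¹ : UU ι) : Matrix ι ι ℂ) =
      (u : Matrix ι ι ℂ) * (v : Matrix ι ι ℂ) * (u : Matrix ι ι ℂ)ᴴ := rfl
    rw [h1, h]
    let U : (Matrix ι ι ℂ)ˣ := ⟨u, (u : Matrix ι ι ℂ)ᴴ, uu2 u, uu1 u⟩
    have h2 := Matrix.exp_units_conj U (t • X)
    have h3 : t • cj u X = (U : Matrix ι ι ℂ) * (t • X) * ((U⁻¹ : (Matrix ι ι ℂ)ˣ) : Matrix ι ι ℂ) := by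
      change t • ((u : Matrix ι ι ℂ) * X * (u : Matrix ι ι ℂ)ᴴ) =
        (u : Matrix ι ι ℂ) * (t • X) * (u : Matrix ι ι ℂ)ᴴ
      rw [mul_smul_comm, smul_mul_assoc]
    rw [h3, h2]
    rfl

/-- the Lie algebra as a real subspace -/
def lieS (L : Subgroup (UU ι)) (hL : IsClosed (L : Set (UU ι))) : Submodule ℝ (Matrix ι ι ℂ) where
  carrier := LieAlg L
  zero_mem' := lie_zero
  add_mem' := fun hX hY => CST1_add L hL _ _ hX hY
  smul_mem' := fun c _ hX => lie_smul hX c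

theorem mem_lieS {hL : IsClosed (L : Set (UU ι))} {X : Matrix ι ι ℂ} :
    X ∈ lieS L hL ↔ X ∈ LieAlg L := Iff.rfl

section deriv
set_option backward.isDefEq.respectTransparency false
open scoped Matrix.Norms.Frobenius

theorem deriv_conj (Z X : Matrix ι ι ℂ) :
    HasDerivAt (fun t : ℝ => NormedSpace.exp (t • Z) * X * NormedSpace.exp (t • (-Z)))
      (Z * X - X * Z) 0 := by
  have h1 : HasDerivAt (fun t : ℝ => NormedSpace.exp (t • Z))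
      (NormedSpace.exp ((0 : ℝ) • Z) * Z) 0 := hasDerivAt_exp_smul_const Z (0 : ℝ)
  have h2 : HasDerivAt (fun t : ℝ => NormedSpace.exp (t • (-Z)))
      (NormedSpace.exp ((0 : ℝ) • (-Z)) * (-Z)) 0 := hasDerivAt_exp_smul_const (-Z) (0 : ℝ)
  have h3 := (h1.mul_const X).mul h2
  rw [zero_smul, zero_smul, NormedSpace.exp_zero, one_mul, one_mul, mul_one, one_mul] at h3
  have e : Z * X + X * -Z = Z * X - X * Z := by rw [mul_neg, sub_eq_add_neg]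
  rw [e] at h3
  exact h3

theorem closed_limit (S : Submodule ℝ (Matrix ι ι ℂ)) {f : ℝ → Matrix ι ι ℂ} {D : Matrix ι ι ℂ}
    (hf : HasDerivAt f D 0) (hS : ∀ t, f t ∈ S) : D ∈ S := by
  have h1 := hasDerivAt_iff_tendsto_slope.1 hf
  have hc : IsClosed (S : Set (Matrix ι ι ℂ)) := Submodule.closed_of_finiteDimensional S
  refine hc.mem_of_tendsto h1 (Eventually.of_forall fun t => ?_)
  rw [slope_def_module]
  exact S.smul_mem _ (S.sub_mem (hS t) (hS 0))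

theorem const_deriv {f : ℝ → Matrix ι ι ℂ} {D : Matrix ι ι ℂ} (g : Matrix ι ι ℂ →ₗ[ℝ] ℝ)
    (hf : HasDerivAt f D 0) (hm : ∀ t, g (f t) ≤ g (f 0)) : g D = 0 := by
  have h1 := (LinearMap.toContinuousLinearMap g).hasFDerivAt.comp_hasDerivAt (0 : ℝ) hf
  have h2 : IsLocalMax (⇑(LinearMap.toContinuousLinearMap g) ∘ f) 0 :=
    Eventually.of_forall fun t => hm t
  exact h2.hasDerivAt_eq_zero h1

end deriv

theorem exp_cj {Z : Matrix ι ι ℂ} (hZ : Zᴴ = -Z) (t : ℝ) (v : UU ι)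
    (hv : (v : Matrix ι ι ℂ) = NormedSpace.exp (t • Z)) (X : Matrix ι ι ℂ) :
    cj v X = NormedSpace.exp (t • Z) * X * NormedSpace.exp (t • (-Z)) := by
  unfold cj
  rw [hv, ← Matrix.exp_conjTranspose, conjTranspose_smul, hZ, star_trivial]

theorem lie_br (hL : IsClosed (L : Set (UU ι))) {X Y : Matrix ι ι ℂ} (hX : X ∈ LieAlg L)
    (hY : Y ∈ LieAlg L) : X * Y - Y * X ∈ LieAlg L := by
  apply closed_limit (lieS L hL) (deriv_conj X Y)
  intro t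
  obtain ⟨v, hv, h⟩ := hX.2 t
  rw [← exp_cj hX.1 t v h]
  exact lie_cj hv hY

end Pool.Agent.TH78.TIG
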