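import Mathlib

set_option autoImplicit false

/-! Linear algebra: commutators with normal matrices. -/

namespace Pool.Agent.TH78.TIG

open Matrix
open scoped ComplexOrder

variable {ι : Type} [Fintype ι]

theorem tr0 {A : Matrix ι ι ℂ} (h : trace (Aᴴ * A) = 0) : A = 0 :=
  trace_conjTranspose_mul_self_eq_zero_iff.1 h

/-- A matrix commuting with `A Aᴴ - Aᴴ A` is normal. -/
theorem normal_of_comm {A : Matrix ι ι ℂ}
    (h : A * (A * Aᴴ - Aᴴ * A) = (A * Aᴴ - Aᴴ * A) * A) : A * Aᴴ = Aᴴ * A := by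
  set C := A * Aᴴ - Aᴴ * A with hC
  have hCH : Cᴴ = C := by
    rw [hC, conjTranspose_sub, conjTranspose_mul, conjTranspose_mul, conjTranspose_conjTranspose]
  have h1 : trace (Cᴴ * C) = 0 := by
    rw [hCH]
    conv_lhs => rw [hC]
    rw [← hC]
    have e1 : trace (C * C) = trace (C * (A * Aᴴ)) - trace (C * (Aᴴ * A)) := by
      rw [← trace_sub, ← mul_sub]
    rw [e1]
    have e2 : trace (C * (Aᴴ * A)) = trace (A * C * Aᴴ) := by
      rw [← mul_assoc, trace_mul_comm (C * Aᴴ) A, mul_assoc]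
    rw [e2, h, mul_assoc, sub_self]
  have := tr0 h1
  rw [hC] at this
  exact sub_eq_zero.1 this

/-- For a normal matrix `A`, if `A` commutes with `A B - B A` then `A` commutes with `B`. -/
theorem comm_of_comm2 {A B : Matrix ι ι ℂ} (hA : A * Aᴴ = Aᴴ * A)
    (h : A * (A * B - B * A) = (A * B - B * A) * A) : A * B = B * A := by
  set D := A * B - B * A with hD
  have hE : Aᴴ * D = D * Aᴴ := by
    have h1 : trace ((Aᴴ * D - D * Aᴴ)ᴴ * (Aᴴ * D - D * Aᴴ)) =
        trace ((A * D - D * A)ᴴ * (A * D - D * A)) := by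
      simp only [conjTranspose_sub, conjTranspose_mul, conjTranspose_conjTranspose, sub_mul,
        mul_sub, trace_sub]
      have e1 : trace (Dᴴ * A * (Aᴴ * D)) = trace (Dᴴ * Aᴴ * (A * D)) := by
        rw [mul_assoc, ← mul_assoc A, hA, mul_assoc Dᴴ, mul_assoc Aᴴ]
      have e2 : trace (Dᴴ * A * (D * Aᴴ)) = trace (Aᴴ * Dᴴ * (A * D)) := by
        rw [← mul_assoc, trace_mul_comm, ← mul_assoc, ← mul_assoc, ← mul_assoc]
      have e3 : trace (A * Dᴴ * (Aᴴ * D)) = trace (Dᴴ * Aᴴ * (D * A)) := by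
        rw [mul_assoc, trace_mul_comm, mul_assoc, mul_assoc, mul_assoc]
      have e4 : trace (A * Dᴴ * (D * Aᴴ)) = trace (Aᴴ * Dᴴ * (D * A)) := by
        rw [← mul_assoc, trace_mul_comm]
        have f1 : Aᴴ * (A * Dᴴ * D) = Aᴴ * A * (Dᴴ * D) := by simp only [mul_assoc]
        rw [f1, ← hA, mul_assoc A, trace_mul_comm]
        simp only [mul_assoc]
      rw [e1, e2, e3, e4]
      ring
    rw [h, sub_self, mul_zero, trace_zero] at h1
    exact sub_eq_zero.1 (tr0 h1)
  have hE' : Dᴴ * A = A * Dᴴ := by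
    have := congrArg conjTranspose hE
    rwa [conjTranspose_mul, conjTranspose_mul, conjTranspose_conjTranspose] at this
  have h2 : trace (Dᴴ * D) = 0 := by
    have e1 : trace (Dᴴ * D) = trace (Dᴴ * (A * B)) - trace (Dᴴ * (B * A)) := by
      rw [← trace_sub, ← mul_sub]
    have e2 : trace (Dᴴ * (B * A)) = trace (A * Dᴴ * B) := by
      rw [← mul_assoc, trace_mul_comm, mul_assoc]
    rw [e1, e2, ← hE', mul_assoc, sub_self]
  have := tr0 h2
  rw [hD] at this
  exact sub_eq_zero.1 this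

/-- iterated commutators with `A` -/
def ad (A : Matrix ι ι ℂ) : ℕ → Matrix ι ι ℂ → Matrix ι ι ℂ
  | 0, B => B
  | (k + 1), B => A * ad A k B - ad A k B * A

theorem comm_of_ad {A B : Matrix ι ι ℂ} (hA : A * Aᴴ = Aᴴ * A) (k : ℕ)
    (h : ad A (k + 1) B = 0) : A * B = B * A := by
  induction k with
  | zero => exact sub_eq_zero.1 h
  | succ k ih =>
    apply ih
    have h1 : A * (A * ad A k B - ad A k B * A) = (A * ad A k B - ad A k B * A) * A :=
      sub_eq_zero.1 h
    exact sub_eq_zero.2 (comm_of_comm2 hA h1)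

end Pool.Agent.TH78.TIG
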